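import Pool.Agent.N389.RB.Stein

/-! # The boundary of unate sets of words -/

set_option autoImplicit false

namespace Pool.Agent.L5helper32.UB

open Finset Function
open Pool.Agent.N389.RB

section one

variable {L : Type} [Fintype L] [DecidableEq L]

omit [DecidableEq L] in
/-- number of smaller letters minus number of larger letters -/
noncomputable def sg (r : L → ℝ) (s : L) : ℝ :=
  ∑ t, ((if r t < r s then (1 : ℝ) else 0) - (if r s < r t then 1 else 0))

omit [DecidableEq L] in
lemma sg_abs (r : L → ℝ) (s : L) : |sg r s| ≤ (Fintype.card L : ℝ) - 1 := by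
  classical
  have h1 : sg r s = ∑ t ∈ univ.erase s,
      ((if r t < r s then (1 : ℝ) else 0) - (if r s < r t then 1 else 0)) := by
    rw [sg, ← add_sum_erase univ _ (mem_univ s)]
    simp
  have hpos : 0 < Fintype.card L := Fintype.card_pos_iff.2 ⟨s⟩
  rw [h1]
  refine (abs_sum_le_sum_abs _ _).trans ?_
  have h2 : ∀ t ∈ univ.erase s,
      |((if r t < r s then (1 : ℝ) else 0) - (if r s < r t then 1 else 0))| ≤ 1 := by
    intro t _
    rcases lt_trichotomy (r t) (r s) with h | h | h
    · simp [h, h.not_gt]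
    · simp [h]
    · simp [h, h.not_gt]
  refine (sum_le_sum h2).trans ?_
  rw [sum_const, card_erase_of_mem (mem_univ s), card_univ, nsmul_eq_mul, mul_one]
  rw [Nat.cast_sub hpos]
  simp

lemma sg_up (r : L → ℝ) (U : Finset L) (hU : ∀ s ∈ U, ∀ t, r s ≤ r t → t ∈ U) :
    ∑ s ∈ U, sg r s = ∑ s ∈ U, ((univ.filter fun t => t ∉ U).card : ℝ) := by
  classical
  obtain ⟨w, hw⟩ : ∃ w : L → L → ℝ,
    w = fun s t => ((if r t < r s then (1 : ℝ) else 0) - (if r s < r t then 1 else 0)) := ⟨_, rfl⟩
  have hanti : ∀ s t, w s t = - w t s := by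
    intro _ _
    rw [hw]
    simp
  have h0 : ∑ s ∈ U, ∑ t ∈ U, w s t = 0 := by
    have h1 : ∑ s ∈ U, ∑ t ∈ U, w s t = - ∑ s ∈ U, ∑ t ∈ U, w s t := by
      conv_lhs => rw [sum_comm]
      rw [← sum_neg_distrib]
      refine sum_congr rfl fun s _ => ?_
      rw [← sum_neg_distrib]
      exact sum_congr rfl fun t _ => hanti t s
    linarith
  have h1 : ∀ s ∈ U, sg r s = ∑ t ∈ U, w s t + ((univ.filter fun t => t ∉ U).card : ℝ) := by
    intro s hs
    have e1 : sg r s = ∑ t, w s t := by rw [sg, hw]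
    rw [e1, ← sum_filter_add_sum_filter_not univ (fun t => t ∈ U)]
    have e2 : univ.filter (fun t => t ∈ U) = U := by ext t; simp
    rw [e2]
    congr 1
    have e3 : ∀ t ∈ univ.filter (fun t => t ∉ U), w s t = 1 := by
      intro t ht
      have h3 : r t < r s := by
        by_contra h
        exact (mem_filter.1 ht).2 (hU s hs t (not_lt.1 h))
      rw [hw]
      simp [h3, h3.not_gt]
    rw [sum_congr rfl e3]
    simp
  rw [sum_congr rfl h1, sum_add_distrib, h0, zero_add]

lemma sg_zero (r : L → ℝ) : ∑ s, sg r s = 0 := by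
  classical
  have h := sg_up r univ (fun _ _ _ _ => mem_univ _)
  rw [h]
  simp

/-- exponential moments of one letter -/
lemma mgf_one [Nonempty L] (r : L → ℝ) (l : ℝ) :
    ∑ s, Real.exp (l * sg r s) ≤
      Fintype.card L * Real.exp (l ^ 2 * ((Fintype.card L : ℝ) - 1) ^ 2 / 2) := by
  classical
  obtain ⟨M, hM⟩ : ∃ M : ℝ, M = (Fintype.card L : ℝ) - 1 := ⟨_, rfl⟩
  have hpos : (1 : ℝ) ≤ Fintype.card L := by
    have : 0 < Fintype.card L := Fintype.card_pos
    exact_mod_cast this
  have hM0 : 0 ≤ M := by rw [hM]; linarith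
  rw [← hM]
  rcases hM0.eq_or_lt with h0 | h0
  · have h1 : ∀ s, sg r s = 0 := by
      intro s
      have := sg_abs r s
      rw [← hM, ← h0] at this
      exact abs_nonpos_iff.1 this
    simp [h1, ← h0]
  · have h1 : ∀ s, Real.exp (l * sg r s) ≤
        Real.cosh (l * M) + sg r s / M * Real.sinh (l * M) := by
      intro s
      have h2 : |sg r s / M| ≤ 1 := by
        rw [abs_div, abs_of_pos h0, div_le_one h0, hM]
        exact sg_abs r s
      have h3 := Real.exp_mul_le_cosh_add_mul_sinh h2 (l * M)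
      have h4 : sg r s / M * (l * M) = l * sg r s := by field_simp
      rw [h4] at h3
      exact h3
    refine (sum_le_sum fun s _ => h1 s).trans ?_
    rw [sum_add_distrib, ← sum_mul, ← sum_div, sg_zero, zero_div, zero_mul, add_zero, sum_const,
      card_univ, nsmul_eq_mul]
    refine mul_le_mul_of_nonneg_left ?_ (by linarith)
    have h2 := Real.cosh_le_exp_half_sq (l * M)
    rwa [mul_pow] at h2

end one

section

variable {n : ℕ} {L : Type} [Fintype L] [DecidableEq L]

/-- the boundary in the direction `i` of an up-set -/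
lemma lv_up [Nonempty L] (r : Fin n → L → ℝ) (F : Finset (Fin n → L))
    (hF : ∀ x ∈ F, ∀ y : Fin n → L, (∀ i, r i (x i) ≤ r i (y i)) → y ∈ F) (i : Fin n) :
    (lv F i : ℝ) = ∑ x ∈ F, sg (r i) (x i) := by
  classical
  have hq : (0 : ℝ) < Fintype.card L := by
    have : 0 < Fintype.card L := Fintype.card_pos
    exact_mod_cast this
  obtain ⟨c, hc⟩ : ∃ c : (Fin n → L) → ℝ,
    c = fun x => ((univ.filter fun t : L => update x i t ∉ F).card : ℝ) := ⟨_, rfl⟩
  have e1 : (lv F i : ℝ) = ∑ x, if x ∈ F then c x else 0 := by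
    rw [lv, card_filter, sum_product]
    push_cast
    rw [← sum_filter]
    have e : univ.filter (fun x : Fin n → L => x ∈ F) = F := by ext x; simp
    rw [e]
    refine sum_congr rfl fun x _ => ?_
    rw [hc]
    simp only [card_filter]
    push_cast
    rfl
  have e2 : ∑ x ∈ F, sg (r i) (x i) = ∑ x, if x ∈ F then sg (r i) (x i) else 0 := by
    rw [← sum_filter]
    have e : univ.filter (fun x : Fin n → L => x ∈ F) = F := by ext x; simp
    rw [e]
  have s1 := swap_sum i (fun x : Fin n → L => if x ∈ F then c x else 0)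
  have s2 := swap_sum i (fun x : Fin n → L => if x ∈ F then sg (r i) (x i) else 0)
  have key : ∀ x : Fin n → L,
      ∑ s : L, (if update x i s ∈ F then c (update x i s) else 0) =
      ∑ s : L, (if update x i s ∈ F then sg (r i) (update x i s i) else 0) := by
    intro x
    obtain ⟨U, hU⟩ : ∃ U : Finset L, U = univ.filter fun s => update x i s ∈ F := ⟨_, rfl⟩
    have hup : ∀ s ∈ U, ∀ t, r i s ≤ r i t → t ∈ U := by
      intro s hs t hst
      rw [hU, mem_filter] at hs ⊢
      refine ⟨mem_univ _, hF _ hs.2 _ fun i' => ?_⟩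
      rcases eq_or_ne i' i with rfl | h
      · simpa using hst
      · simp [h]
    have h1 := sg_up (r i) U hup
    rw [← sum_filter, ← sum_filter, ← hU]
    simp only [update_self]
    rw [h1]
    refine sum_congr rfl fun s _ => ?_
    rw [hc]
    simp only [update_idem]
    have e : (univ.filter fun t : L => t ∉ U) = univ.filter fun t : L => update x i t ∉ F := by
      ext t
      rw [mem_filter, mem_filter, hU, mem_filter]
      simp
    rw [e]
  rw [sum_congr rfl fun x _ => key x] at s1
  rw [s1] at s2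
  have s3 := mul_left_cancel₀ hq.ne' s2
  rw [e1, e2]
  exact s3

/-- the boundary of an up-set -/
lemma bdy_up [Nonempty L] (r : Fin n → L → ℝ) (F : Finset (Fin n → L))
    (hF : ∀ x ∈ F, ∀ y : Fin n → L, (∀ i, r i (x i) ≤ r i (y i)) → y ∈ F) :
    (bdy F : ℝ) = ∑ x ∈ F, ∑ i, sg (r i) (x i) := by
  rw [bdy_eq]
  push_cast
  rw [sum_comm]
  exact sum_congr rfl fun i _ => lv_up r F hF i

omit [DecidableEq L] in
/-- exponential moments -/
lemma mgf [Nonempty L] (r : Fin n → L → ℝ) (l : ℝ) :
    ∑ x : Fin n → L, Real.exp (l * ∑ i, sg (r i) (x i)) ≤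
      (Fintype.card L : ℝ) ^ n *
        Real.exp (n * (l ^ 2 * ((Fintype.card L : ℝ) - 1) ^ 2 / 2)) := by
  classical
  have h1 : ∀ x : Fin n → L, Real.exp (l * ∑ i, sg (r i) (x i)) =
      ∏ i, Real.exp (l * sg (r i) (x i)) := by
    intro x
    rw [mul_sum, Real.exp_sum]
  rw [sum_congr rfl fun x _ => h1 x]
  have h2 := (Finset.prod_univ_sum (fun _ : Fin n => (univ : Finset L))
    (fun i s => Real.exp (l * sg (r i) s))).symm
  rw [Fintype.piFinset_univ] at h2
  rw [h2]
  refine (prod_le_prod (fun i _ => sum_nonneg fun s _ => (Real.exp_pos _).le)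
    fun i _ => mgf_one (r i) l).trans ?_
  rw [prod_const, card_univ, Fintype.card_fin, mul_pow, ← Real.exp_nat_mul]

/-- the boundary of an up-set is small -/
theorem bdy_up_le [Nonempty L] (r : Fin n → L → ℝ) (F : Finset (Fin n → L)) (hne : F.Nonempty)
    (hF : ∀ x ∈ F, ∀ y : Fin n → L, (∀ i, r i (x i) ≤ r i (y i)) → y ∈ F) :
    (bdy F : ℝ) ≤ ((Fintype.card L : ℝ) - 1) *
      √(2 * n * Real.log ((Fintype.card L : ℝ) ^ n / F.card)) * F.card := by
  classical
  obtain ⟨M, hM⟩ : ∃ M : ℝ, M = (Fintype.card L : ℝ) - 1 := ⟨_, rfl⟩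
  have hpos : (1 : ℝ) ≤ Fintype.card L := by
    have : 0 < Fintype.card L := Fintype.card_pos
    exact_mod_cast this
  have hM0 : 0 ≤ M := by rw [hM]; linarith
  have hFc : (0 : ℝ) < F.card := by exact_mod_cast hne.card_pos
  have hqn : (0 : ℝ) < (Fintype.card L : ℝ) ^ n := by positivity
  obtain ⟨B, hB⟩ : ∃ B : ℝ, B = (bdy F : ℝ) / F.card := ⟨_, rfl⟩
  have hB0 : 0 ≤ B := by rw [hB]; positivity
  obtain ⟨Λ, hΛ⟩ : ∃ Λ : ℝ, Λ = Real.log ((Fintype.card L : ℝ) ^ n / F.card) := ⟨_, rfl⟩
  have key : ∀ l : ℝ, l * B ≤ Λ + n * (l ^ 2 * M ^ 2 / 2) := by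
    intro l
    have h1 : Real.exp (l * B) ≤ (∑ x ∈ F, Real.exp (l * ∑ i, sg (r i) (x i))) / F.card := by
      have h2 := convexOn_exp.map_sum_le (t := F) (w := fun _ => (1 : ℝ) / F.card)
        (p := fun x => l * ∑ i, sg (r i) (x i)) (fun _ _ => by positivity)
        (by rw [sum_const, nsmul_eq_mul]; field_simp) (fun _ _ => Set.mem_univ _)
      simp only [smul_eq_mul, ← mul_sum] at h2
      have h3 : 1 / (F.card : ℝ) * (l * ∑ x ∈ F, ∑ i, sg (r i) (x i)) = l * B := by
        rw [hB, bdy_up r F hF]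
        ring
      rw [h3] at h2
      refine h2.trans (le_of_eq ?_)
      ring
    have h2 : ∑ x ∈ F, Real.exp (l * ∑ i, sg (r i) (x i)) ≤
        (Fintype.card L : ℝ) ^ n * Real.exp (n * (l ^ 2 * M ^ 2 / 2)) := by
      rw [hM]
      refine le_trans ?_ (mgf r l)
      exact sum_le_sum_of_subset_of_nonneg (subset_univ _) fun x _ _ => (Real.exp_pos _).le
    have h3 : Real.exp (l * B) ≤ Real.exp (Λ + n * (l ^ 2 * M ^ 2 / 2)) := by
      rw [Real.exp_add, hΛ, Real.exp_log (by positivity)]
      refine h1.trans ?_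
      rw [div_mul_eq_mul_div]
      exact div_le_div_of_nonneg_right h2 hFc.le
    exact Real.exp_le_exp.1 h3
  have hΛ0 : 0 ≤ Λ := by
    have := key 0
    simpa using this
  have hsq : B ^ 2 ≤ M ^ 2 * (2 * n * Λ) := by
    rcases eq_or_lt_of_le hΛ0 with h0 | h0
    · -- Λ = 0
      have hB' : B = 0 := by
        by_contra hne'
        have hBp : 0 < B := lt_of_le_of_ne hB0 (Ne.symm hne')
        have h1 := key (B / (n * M ^ 2 + 1))
        rw [← h0, zero_add] at h1
        have hd : (0 : ℝ) < n * M ^ 2 + 1 := by positivity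
        have h2 : B / (n * M ^ 2 + 1) * B = B ^ 2 / (n * M ^ 2 + 1) := by ring
        have h3 : n * ((B / (n * M ^ 2 + 1)) ^ 2 * M ^ 2 / 2)
            = B ^ 2 / (n * M ^ 2 + 1) * ((n * M ^ 2) / (n * M ^ 2 + 1) / 2) := by
          field_simp
        rw [h2, h3] at h1
        have h4 : 0 < B ^ 2 / (n * M ^ 2 + 1) := by positivity
        have h5 : (n * M ^ 2) / (n * M ^ 2 + 1) / 2 < (1 : ℝ) := by
          have : (n * M ^ 2) / (n * M ^ 2 + 1) ≤ (1 : ℝ) := by
            rw [div_le_one hd]; linarith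
          linarith
        nlinarith
      rw [hB', ← h0]
      simp
    · rcases Nat.eq_zero_or_pos n with rfl | hn
      · exfalso
        have hle : (F.card : ℝ) ≤ 1 := by
          have h1 : F.card ≤ (univ : Finset (Fin 0 → L)).card := card_le_card (subset_univ _)
          have h2 : (univ : Finset (Fin 0 → L)).card = 1 := by simp
          rw [h2] at h1
          exact_mod_cast h1
        have h1' : (F.card : ℝ) = 1 := by
          have : (1 : ℝ) ≤ F.card := by exact_mod_cast hne.card_pos
          linarith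
        rw [hΛ, h1'] at h0
        simp at h0
      · rcases eq_or_lt_of_le hM0 with hM1 | hM1
        · -- M = 0
          have hB' : B ≤ 0 := by
            by_contra hcon
            push Not at hcon
            have h1 := key (2 * Λ / B)
            rw [← hM1] at h1
            have h2 : 2 * Λ / B * B = 2 * Λ := by field_simp
            rw [h2] at h1
            simp at h1
            linarith
          have : B = 0 := le_antisymm hB' hB0
          rw [this, ← hM1]
          simp
        · have hn' : (0 : ℝ) < n := by exact_mod_cast hn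
          have hd : 0 < n * M ^ 2 := by positivity
          have h1 := key (B / (n * M ^ 2))
          have h2 : B / (n * M ^ 2) * B = B ^ 2 / (n * M ^ 2) := by ring
          have h3 : n * ((B / (n * M ^ 2)) ^ 2 * M ^ 2 / 2) = B ^ 2 / (n * M ^ 2) / 2 := by
            field_simp
          rw [h2, h3] at h1
          have h4 : B ^ 2 / (n * M ^ 2) ≤ 2 * Λ := by linarith
          rw [div_le_iff₀ hd] at h4
          linarith
  have hfin : B ≤ M * √(2 * n * Λ) := by
    have h1 : √(B ^ 2) ≤ √(M ^ 2 * (2 * n * Λ)) := Real.sqrt_le_sqrt hsq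
    rw [Real.sqrt_sq hB0, Real.sqrt_mul (by positivity), Real.sqrt_sq hM0] at h1
    exact h1
  rw [hB, div_le_iff₀ hFc] at hfin
  rw [← hM, ← hΛ]
  exact hfin

end

end Pool.Agent.L5helper32.UB
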